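import Pool.Agent.Helper97.Ku.GoalsC

/-! Packet CAP: small families of truth values depend on a small set of coordinates. -/

namespace Pool.Agent.Helper97.Ku.PkCap

open Set

theorem cap (hclo : G_CLO) : G_CAP := by
  intro I b D0 hI hD0
  have h0 : ∀ (d : Cond) (i : I), ∃ q, q ≤ d ∧ (q ∈ b i ∨ q ∈ (b i)ᶜ) :=
    fun d i => RO.mem_or_compl d
  choose e he1 he2 using h0
  have hsm : ∀ d : Cond, Small.{0} (⋃ i, (e d i).supp : Set Coord) := by
    intro d
    have : ∀ i, Small.{0} ((e d i).supp) := by
      intro i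
      have : Countable ((e d i).supp) := (e d i).supp_countable.to_subtype
      exact Countable.toSmall _
    exact small_iUnion _
  obtain ⟨D, hD, hDs, hDc⟩ := hclo (fun d => ⋃ i, (e d i).supp) D0 hsm hD0
  refine ⟨D, hD, hDs, fun i p hp => RO.dense fun q hq => ?_⟩
  have hsub : (e (q.rs D) i).supp ⊆ D :=
    (subset_iUnion (fun i => (e (q.rs D) i).supp) i).trans (hDc _ (q.supp_rs_subset D))
  have hle : e (q.rs D) i ≤ q.rs D := he1 _ i
  rcases he2 (q.rs D) i with h | h
  · exact ⟨am q (e (q.rs D) i) (cmp_of_le hle hsub), am_le_left _,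
      RO.lower (am_le_right _) h⟩
  · exfalso
    have hle' : e (q.rs D) i ≤ p.rs D := by
      refine hle.trans ?_
      have h1 := Cond.rs_mono hq D
      rw [p.rs_rs_of_subset (le_refl D)] at h1
      exact h1
    exact RO.not_mem_compl (RO.lower (am_le_left (cmp_of_le hle' hsub)) hp)
      (RO.lower (am_le_right (cmp_of_le hle' hsub)) h)

end Pool.Agent.Helper97.Ku.PkCap
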